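import Mathlib

/-! Shortest odd cycles of a graph: only few of their vertices are near a given one of them. -/

set_option autoImplicit false

namespace Pool.Agent.Detour

open SimpleGraph

/-- an odd closed walk contains an odd cycle which is not longer -/
theorem odd_cycle_le {V : Type} (G : SimpleGraph V) (u : V) (w : G.Walk u u)
    (hw : Odd w.length) :
    ∃ (v : V) (p : G.Walk v v), p.IsCycle ∧ Odd p.length ∧ p.length ≤ w.length := by
  obtain ⟨n, hn⟩ : ∃ n, w.length = n := ⟨_, rfl⟩
  induction n using Nat.strong_induction_on generalizing u with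
  | _ n ih =>
    cases w with
    | nil => simp at hw
    | @cons _ v' _ h q =>
      by_cases hq : q.IsPath
      · refine ⟨u, Walk.cons h q, ?_, hw, le_rfl⟩
        rw [Walk.isCycle_iff_isPath_tail_and_le_length]
        refine ⟨by simpa using hq, ?_⟩
        have h1 : (Walk.cons h q).length ≠ 1 := by
          intro h1
          exact G.loopless.irrefl u (Walk.adj_of_length_eq_one h1)
        obtain ⟨m, hm⟩ := hw
        omega
      · rw [Walk.isPath_iff_isSubwalk_imp_nil] at hq
        push Not at hq
        obtain ⟨x, c, hc, hcn⟩ := hq
        obtain ⟨r1, r2, he⟩ := hc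
        have hcl : c.length ≠ 0 := by
          intro h0
          exact hcn (Walk.length_eq_zero_iff.1 h0)
        have hql : q.length = r1.length + c.length + r2.length := by
          rw [he, Walk.length_append, Walk.length_append]
        rw [Walk.length_cons] at hn hw ⊢
        rcases Nat.even_or_odd c.length with hce | hco
        · -- remove the even closed walk
          have hlen : (Walk.cons h (r1.append r2)).length = r1.length + r2.length + 1 := by
            rw [Walk.length_cons, Walk.length_append]
          have hodd : Odd (Walk.cons h (r1.append r2)).length := by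
            rw [hlen]
            rw [hql] at hw
            obtain ⟨m, hm⟩ := hw
            obtain ⟨l, hl⟩ := hce
            exact ⟨m - l, by omega⟩
          obtain ⟨v, p, hp, hpo, hps⟩ := ih _ (by rw [hlen]; omega) u
            (Walk.cons h (r1.append r2)) hodd rfl
          exact ⟨v, p, hp, hpo, by rw [hlen] at hps; omega⟩
        · obtain ⟨v, p, hp, hpo, hps⟩ := ih c.length (by omega) x c hco rfl
          exact ⟨v, p, hp, hpo, by omega⟩

/-- a graph with an odd cycle has a shortest one; no odd closed walk is shorter -/
theorem exists_min {V : Type} (G : SimpleGraph V)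
    (h : ∃ (v : V) (p : G.Walk v v), p.IsCycle ∧ Odd p.length) :
    ∃ (v : V) (p : G.Walk v v), p.IsCycle ∧ Odd p.length ∧
      ∀ (u : V) (w : G.Walk u u), Odd w.length → p.length ≤ w.length := by
  classical
  have hex : ∃ n, ∃ (v : V) (p : G.Walk v v), p.IsCycle ∧ Odd p.length ∧ p.length = n := by
    obtain ⟨v, p, hp, ho⟩ := h
    exact ⟨p.length, v, p, hp, ho, rfl⟩
  obtain ⟨v, p, hp, ho, hl⟩ := Nat.find_spec hex
  refine ⟨v, p, hp, ho, fun u w hw => ?_⟩
  obtain ⟨v', q, hq, hqo, hql⟩ := odd_cycle_le G u w hw
  rw [hl]
  exact (Nat.find_min' hex ⟨v', q, hq, hqo, rfl⟩).trans hql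

/-- the vertices of a shortest odd closed walk that are near one of its vertices -/
theorem ball {V : Type} [DecidableEq V] (G : SimpleGraph V) (v : V) (p : G.Walk v v)
    (hodd : Odd p.length)
    (hmin : ∀ (u : V) (w : G.Walk u u), Odd w.length → p.length ≤ w.length)
    (c : V) (hc : c ∈ p.support) (j : ℕ) :
    ∃ B : Finset V, B.card ≤ 2 * j + 1 ∧ c ∈ B ∧
      ∀ (z : V) (w : G.Walk c z), z ∈ p.support → w.length ≤ j → z ∈ B := by
  obtain ⟨q, hql, hqs⟩ : ∃ q : G.Walk c c, q.length = p.length ∧
      ∀ z, z ∈ p.support → z ∈ q.support := by
    refine ⟨p.rotate c hc, ?_, fun z hz => (Walk.mem_support_rotate_iff p c hc).2 hz⟩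
    have h1 := congrArg Walk.length (Walk.take_spec p hc)
    rw [Walk.length_append] at h1
    rw [Walk.rotate, Walk.length_append]
    omega
  refine ⟨(Finset.range (j + 1)).image (fun i => q.getVert i) ∪
    (Finset.range j).image (fun i => q.getVert (q.length - (i + 1))), ?_, ?_, ?_⟩
  · have h1 := Finset.card_union_le ((Finset.range (j + 1)).image (fun i => q.getVert i))
      ((Finset.range j).image (fun i => q.getVert (q.length - (i + 1))))
    have h2 := Finset.card_image_le (s := Finset.range (j + 1)) (f := fun i => q.getVert i)
    have h3 := Finset.card_image_le (s := Finset.range j)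
      (f := fun i => q.getVert (q.length - (i + 1)))
    rw [Finset.card_range] at h2 h3
    omega
  · refine Finset.mem_union_left _ (Finset.mem_image.2 ⟨0, by simp, ?_⟩)
    exact q.getVert_zero
  · intro z w hz hw
    obtain ⟨i, hi, hil⟩ := Walk.mem_support_iff_exists_getVert.1 (hqs z hz)
    subst hi
    have hA : (w.append (q.take i).reverse).length = w.length + i := by
      rw [Walk.length_append, Walk.length_reverse, Walk.take_length]
      omega
    have hB : (w.append (q.drop i)).length = w.length + (q.length - i) := by
      rw [Walk.length_append, Walk.drop_length]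
    rcases Nat.even_or_odd (w.length + i) with he | ho
    · have h2 : Odd (w.length + (q.length - i)) := by
        rw [← hql] at hodd
        obtain ⟨a, ha⟩ := he
        obtain ⟨b, hb⟩ := hodd
        exact ⟨w.length + b - a, by omega⟩
      have h3 := hmin _ (w.append (q.drop i)) (by rw [hB]; exact h2)
      rw [hB] at h3
      refine Finset.mem_union_left _ (Finset.mem_image.2 ⟨i, ?_, rfl⟩)
      rw [Finset.mem_range]
      omega
    · have h3 := hmin _ (w.append (q.take i).reverse) (by rw [hA]; exact ho)
      rw [hA] at h3
      by_cases hiL : i = q.length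
      · refine Finset.mem_union_left _ (Finset.mem_image.2 ⟨0, by simp, ?_⟩)
        rw [hiL, q.getVert_length, q.getVert_zero]
      · refine Finset.mem_union_right _ (Finset.mem_image.2 ⟨q.length - i - 1, ?_, ?_⟩)
        · rw [Finset.mem_range]
          omega
        · show q.getVert (q.length - (q.length - i - 1 + 1)) = q.getVert i
          congr 1
          omega

end Pool.Agent.Detour
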