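import Pool.Agent.Lib.MP_dffe52_co.Detour.A

/-! Rerouting walks around deleted vertices. -/

set_option autoImplicit false

namespace Pool.Agent.Detour

open SimpleGraph

/-- `a` and `b` are joined by a walk outside `Z` -/
def Jn {V : Type} (G : SimpleGraph V) (Z : Set V) (a b : V) : Prop :=
  ∃ w : G.Walk a b, ∀ x ∈ w.support, x ∉ Z

theorem Jn.refl {V : Type} {G : SimpleGraph V} {Z : Set V} {a : V} (ha : a ∉ Z) : Jn G Z a a :=
  ⟨Walk.nil, fun x hx => by
    rw [Walk.support_nil, List.mem_singleton] at hx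
    rw [hx]; exact ha⟩

theorem Jn.trans {V : Type} {G : SimpleGraph V} {Z : Set V} {a b c : V} (h1 : Jn G Z a b)
    (h2 : Jn G Z b c) : Jn G Z a c := by
  obtain ⟨w1, hw1⟩ := h1
  obtain ⟨w2, hw2⟩ := h2
  refine ⟨w1.append w2, fun x hx => ?_⟩
  rw [Walk.mem_support_append_iff] at hx
  rcases hx with hx | hx
  · exact hw1 x hx
  · exact hw2 x hx

theorem Jn.adj {V : Type} {G : SimpleGraph V} {Z : Set V} {a b : V} (ha : a ∉ Z) (hb : b ∉ Z)
    (h : G.Adj a b) : Jn G Z a b := by
  refine ⟨Walk.cons h Walk.nil, fun x hx => ?_⟩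
  rw [Walk.support_cons, Walk.support_nil, List.mem_cons, List.mem_singleton] at hx
  rcases hx with hx | hx
  · rw [hx]; exact ha
  · rw [hx]; exact hb

/-- one step of the rerouting -/
theorem reroute {V : Type} (G : SimpleGraph V) (T D : Set V)
    (hT : ∀ a b, a ∉ T → b ∉ T → Jn G T a b)
    (h1 : ∀ c ∈ D, c ∉ T → ∃ u, G.Adj c u ∧ u ∉ T ∪ D)
    (h2 : ∀ c ∈ D, c ∉ T → ∀ u v, G.Adj c u → G.Adj c v → u ∉ T ∪ D → v ∉ T ∪ D →
      Jn G (T ∪ D) u v)
    (h3 : ∀ c ∈ D, c ∉ T → ∀ c' ∈ D, c' ∉ T → G.Adj c c' → ∀ u, G.Adj c u → u ∉ T ∪ D →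
      ∃ y, G.Adj c' y ∧ y ∉ T ∪ D ∧ Jn G (T ∪ D) u y) :
    ∀ a b, a ∉ T ∪ D → b ∉ T ∪ D → Jn G (T ∪ D) a b := by
  intro a b ha hb
  have hZ : ∀ x, x ∉ T → x ∉ D → x ∉ T ∪ D := fun x h h' hx => hx.elim h h'
  obtain ⟨w, hw⟩ := hT a b (fun h => ha (Or.inl h)) (fun h => hb (Or.inl h))
  have key : ∀ (x y : V) (w : G.Walk x y), (∀ z ∈ w.support, z ∉ T) →
      ((x ∉ D → Jn G (T ∪ D) a x) ∧
        (x ∈ D → ∀ u, G.Adj x u → u ∉ T ∪ D → Jn G (T ∪ D) a u)) →
      ((y ∉ D → Jn G (T ∪ D) a y) ∧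
        (y ∈ D → ∀ u, G.Adj y u → u ∉ T ∪ D → Jn G (T ∪ D) a u)) := by
    intro x y w
    induction w with
    | nil => intro _ h; exact h
    | @cons x x' y h q ih =>
      intro hs hQ
      have hx : x ∉ T := hs x (by rw [Walk.support_cons]; exact List.mem_cons_self)
      have hx' : x' ∉ T := hs x' (by
        rw [Walk.support_cons]; exact List.mem_cons_of_mem _ q.start_mem_support)
      refine ih (fun z hz => hs z (by rw [Walk.support_cons]; exact List.mem_cons_of_mem _ hz)) ?_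
      by_cases hxD : x ∈ D
      · have hQ2 := hQ.2 hxD
        refine ⟨fun hx'D => hQ2 x' h (hZ x' hx' hx'D), fun hx'D u' hu' hu'Z => ?_⟩
        obtain ⟨u, hu, huZ⟩ := h1 x hxD hx
        obtain ⟨y', hy', hy'Z, hJ⟩ := h3 x hxD hx x' hx'D hx' h u hu huZ
        exact ((hQ2 u hu huZ).trans hJ).trans (h2 x' hx'D hx' y' u' hy' hu' hy'Z hu'Z)
      · have hQ1 := hQ.1 hxD
        refine ⟨fun hx'D => hQ1.trans (Jn.adj (hZ x hx hxD) (hZ x' hx' hx'D) h),
          fun hx'D u' hu' hu'Z => ?_⟩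
        exact hQ1.trans (h2 x' hx'D hx' x u' h.symm hu' (hZ x hx hxD) hu'Z)
  exact (key a b w hw ⟨fun _ => Jn.refl ha, fun h => absurd (Or.inr h) ha⟩).1
    (fun h => hb (Or.inr h))

/-- stop a walk before its first visit to the end -/
theorem stop {V : Type} (G : SimpleGraph V) (u c : V) (w : G.Walk u c) (h : u ≠ c) :
    ∃ y, G.Adj c y ∧ ∃ q : G.Walk u y, ∀ x ∈ q.support, x ∈ w.support ∧ x ≠ c := by
  induction w with
  | nil => exact absurd rfl h
  | @cons u x c hux q ih =>
    by_cases hx : x = c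
    · subst hx
      refine ⟨u, hux.symm, Walk.nil, fun z hz => ?_⟩
      rw [Walk.support_nil, List.mem_singleton] at hz
      subst hz
      exact ⟨by rw [Walk.support_cons]; exact List.mem_cons_self, h⟩
    · obtain ⟨y, hy, q', hq'⟩ := ih hx
      refine ⟨y, hy, Walk.cons hux q', fun z hz => ?_⟩
      rw [Walk.support_cons, List.mem_cons] at hz
      rcases hz with hz | hz
      · subst hz
        exact ⟨by rw [Walk.support_cons]; exact List.mem_cons_self, h⟩
      · refine ⟨?_, (hq' z hz).2⟩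
        rw [Walk.support_cons]
        exact List.mem_cons_of_mem _ (hq' z hz).1

/-- the vertices of a short detour are near the vertex that it avoids -/
theorem near {V : Type} (G : SimpleGraph V) (c u v : V) (hu : G.Adj c u) (hv : G.Adj c v)
    (w : G.Walk u v) (r : ℕ) (hw : w.length ≤ r) (x : V) (hx : x ∈ w.support) :
    ∃ w' : G.Walk c x, w'.length ≤ r / 2 + 1 := by
  obtain ⟨i, hi, hil⟩ := Walk.mem_support_iff_exists_getVert.1 hx
  subst hi
  by_cases h : i ≤ r / 2
  · refine ⟨Walk.cons hu (w.take i), ?_⟩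
    rw [Walk.length_cons, Walk.take_length]
    omega
  · refine ⟨Walk.cons hv (w.drop i).reverse, ?_⟩
    rw [Walk.length_cons, Walk.length_reverse, Walk.drop_length]
    omega

/-- Any two neighbours of `c` are joined by a walk of length at most `r`, for some `r`, even
after the deletion of any `k + r + 2` further vertices. -/
def Det {V : Type} (G : SimpleGraph V) (k : ℕ) (c : V) : Prop :=
  ∀ u v : V, G.Adj c u → G.Adj c v → u ≠ v → ∃ r : ℕ, ∀ X : Finset V, X.card ≤ k + r + 2 →
    u ∉ X → v ∉ X → ∃ w : G.Walk u v, w.length ≤ r ∧ ∀ x ∈ w.support, x ∉ X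

/-- fewer than `k` vertices do not separate such a graph -/
theorem conn_sub {V : Type} [Fintype V] (G : SimpleGraph V) (k : ℕ) (hG : G.Connected)
    (hdeg : ∀ c : V, k + 3 ≤ (G.neighborSet c).ncard) (hdet : ∀ c, Det G k c) (S : Finset V)
    (hS : S.card < k) : ∀ a b, a ∉ (S : Set V) → b ∉ (S : Set V) → Jn G (S : Set V) a b := by
  classical
  have h := reroute G ∅ (S : Set V)
    (fun a b _ _ => by
      obtain ⟨w⟩ := hG.preconnected a b
      exact ⟨w, fun x _ hx => hx⟩)
    (fun c hc _ => by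
      by_contra hcon
      push Not at hcon
      have hsub : G.neighborSet c ⊆ (S : Set V) := by
        intro u hu
        have := hcon u hu
        rwa [Set.empty_union] at this
      have h1 := Set.ncard_le_ncard hsub (Set.toFinite _)
      rw [Set.ncard_coe_finset] at h1
      have := hdeg c
      omega)
    (fun c hc _ u v hu hv huZ hvZ => by
      rw [Set.empty_union] at huZ hvZ ⊢
      by_cases huv : u = v
      · subst huv
        exact Jn.refl huZ
      · obtain ⟨r, hr⟩ := hdet c u v hu hv huv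
        obtain ⟨w, -, hw⟩ := hr S (by omega) (fun h => huZ (Finset.mem_coe.2 h))
          (fun h => hvZ (Finset.mem_coe.2 h))
        exact ⟨w, fun x hx h => hw x hx (Finset.mem_coe.1 h)⟩)
    (fun c hc _ c' hc' _ hcc u hu huZ => by
      rw [Set.empty_union] at huZ ⊢
      have huc : u ≠ c' := fun h => huZ (h ▸ hc')
      obtain ⟨r, hr⟩ := hdet c u c' hu hcc huc
      have h1 : (S.erase c').card ≤ S.card := Finset.card_erase_le
      obtain ⟨w, -, hw⟩ := hr (S.erase c') (by omega)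
        (fun h => huZ (Finset.mem_coe.2 (Finset.mem_of_mem_erase h)))
        (fun h => (Finset.mem_erase.1 h).1 rfl)
      obtain ⟨y, hy, q, hq⟩ := stop G u c' w huc
      have hqS : ∀ x ∈ q.support, x ∉ (S : Set V) := fun x hx h =>
        hw x (hq x hx).1 (Finset.mem_erase.2 ⟨(hq x hx).2, Finset.mem_coe.1 h⟩)
      exact ⟨y, hy, hqS y q.end_mem_support, q, hqS⟩)
  intro a b ha hb
  have := h a b (by rwa [Set.empty_union]) (by rwa [Set.empty_union])
  rwa [Set.empty_union] at this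

end Pool.Agent.Detour
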