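import Pool.Agent.Lib.MP_dffe52_co.Detour.B

/-! A shortest odd cycle can be removed from a graph with short detours. -/

set_option autoImplicit false

namespace Pool.Agent.Detour

open SimpleGraph

/-- a vertex of a shortest odd closed walk has at most two neighbours on it -/
theorem few {V : Type} [Fintype V] (G : SimpleGraph V) (v : V) (p : G.Walk v v)
    (hodd : Odd p.length)
    (hmin : ∀ (u : V) (w : G.Walk u u), Odd w.length → p.length ≤ w.length)
    (c : V) (hc : c ∈ p.support) :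
    (G.neighborSet c ∩ {x | x ∈ p.support}).ncard ≤ 2 := by
  classical
  obtain ⟨B, hB, hcB, hBz⟩ := ball G v p hodd hmin c hc 1
  have hsub : G.neighborSet c ∩ {x | x ∈ p.support} ⊆ (↑(B.erase c) : Set V) := by
    intro x hx
    have hcx : G.Adj c x := hx.1
    rw [Finset.mem_coe, Finset.mem_erase]
    exact ⟨hcx.ne', hBz x (Walk.cons hcx Walk.nil) hx.2 (by simp)⟩
  have h1 := Set.ncard_le_ncard hsub (Set.toFinite _)
  rw [Set.ncard_coe_finset, Finset.card_erase_of_mem hcB] at h1
  omega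

theorem outside {V : Type} [Fintype V] (G : SimpleGraph V) (k : ℕ) (v : V) (p : G.Walk v v)
    (hdeg : ∀ c ∈ p.support, k + 3 ≤ (G.neighborSet c).ncard)
    (hodd : Odd p.length)
    (hmin : ∀ (u : V) (w : G.Walk u u), Odd w.length → p.length ≤ w.length)
    (c : V) (hc : c ∈ p.support) :
    k + 1 ≤ (G.neighborSet c \ {x | x ∈ p.support}).ncard := by
  have h1 := few G v p hodd hmin c hc
  have h2 := hdeg c hc
  have h3 := Set.ncard_inter_add_ncard_sdiff_eq_ncard (G.neighborSet c) {x | x ∈ p.support}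
    (Set.toFinite _)
  omega

theorem conn_cycle {V : Type} [Fintype V] (G : SimpleGraph V) (k : ℕ)
    (hconn : ∀ S : Finset V, S.card < k → ∀ a b, a ∉ (S : Set V) → b ∉ (S : Set V) →
      Jn G (S : Set V) a b) (v : V) (p : G.Walk v v)
    (hdeg : ∀ c ∈ p.support, k + 3 ≤ (G.neighborSet c).ncard)
    (hdet : ∀ c ∈ p.support, Det G k c) (hodd : Odd p.length)
    (hmin : ∀ (u : V) (w : G.Walk u u), Odd w.length → p.length ≤ w.length)
    (S : Finset V) (hS : S.card < k) :
    ∀ a b, a ∉ ((S : Set V) ∪ {x | x ∈ p.support}) → b ∉ ((S : Set V) ∪ {x | x ∈ p.support}) →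
      Jn G ((S : Set V) ∪ {x | x ∈ p.support}) a b := by
  classical
  have hbox : ∀ c ∈ {x | x ∈ p.support}, ∀ r : ℕ, ∃ X : Finset V, X.card ≤ k + r + 2 ∧
      (∀ x ∈ X, x ∈ S ∨ x ∈ p.support) ∧ (∀ x ∈ S, x ∈ X) ∧
      ∀ (z : V) (w : G.Walk c z), z ∈ p.support → w.length ≤ r / 2 + 1 → z ∈ X := by
    intro c hc r
    obtain ⟨B, hB, hcB, hBz⟩ := ball G v p hodd hmin c hc (r / 2 + 1)
    refine ⟨S ∪ B.filter (fun x => x ∈ p.support), ?_, ?_, ?_, ?_⟩
    · have h1 := Finset.card_union_le S (B.filter (fun x => x ∈ p.support))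
      have h2 := Finset.card_filter_le B (fun x => x ∈ p.support)
      omega
    · intro x hx
      rw [Finset.mem_union, Finset.mem_filter] at hx
      rcases hx with hx | hx
      · exact Or.inl hx
      · exact Or.inr hx.2
    · intro x hx
      exact Finset.mem_union_left _ hx
    · intro z w hz hw
      exact Finset.mem_union_right _ (Finset.mem_filter.2 ⟨hBz z w hz hw, hz⟩)
  refine reroute G (S : Set V) {x | x ∈ p.support} (hconn S hS) ?_ ?_ ?_
  · intro c hc _
    by_contra hcon
    push Not at hcon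
    have hsub : G.neighborSet c \ {x | x ∈ p.support} ⊆ (S : Set V) := by
      intro u hu
      exact (hcon u hu.1).resolve_right hu.2
    have h1 := Set.ncard_le_ncard hsub (Set.toFinite _)
    rw [Set.ncard_coe_finset] at h1
    have h2 := outside G k v p hdeg hodd hmin c hc
    omega
  · intro c hc _ u u' hu hu' huZ hu'Z
    by_cases huu : u = u'
    · subst huu
      exact Jn.refl huZ
    · obtain ⟨r, hr⟩ := hdet c hc u u' hu hu' huu
      obtain ⟨X, hX, hX1, hX2, hX3⟩ := hbox c hc r
      obtain ⟨w, hwl, hw⟩ := hr X hX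
        (fun h => huZ ((hX1 u h).imp Finset.mem_coe.2 id))
        (fun h => hu'Z ((hX1 u' h).imp Finset.mem_coe.2 id))
      refine ⟨w, fun x hx h => ?_⟩
      rcases h with h | h
      · exact hw x hx (hX2 x (Finset.mem_coe.1 h))
      · obtain ⟨w', hw'⟩ := near G c u u' hu hu' w r hwl x hx
        exact hw x hx (hX3 x w' h hw')
  · intro c hc _ c' hc' _ hcc u hu huZ
    have huc : u ≠ c' := fun h => huZ (Or.inr (h ▸ hc'))
    obtain ⟨r, hr⟩ := hdet c hc u c' hu hcc huc
    obtain ⟨X, hX, hX1, hX2, hX3⟩ := hbox c hc r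
    have h1 : (X.erase c').card ≤ X.card := Finset.card_erase_le
    obtain ⟨w, hwl, hw⟩ := hr (X.erase c') (by omega)
      (fun h => huZ ((hX1 u (Finset.mem_of_mem_erase h)).imp Finset.mem_coe.2 id))
      (fun h => (Finset.mem_erase.1 h).1 rfl)
    obtain ⟨y, hy, q, hq⟩ := stop G u c' w huc
    have hqZ : ∀ x ∈ q.support, x ∉ ((S : Set V) ∪ {x | x ∈ p.support}) := by
      intro x hx h
      refine hw x (hq x hx).1 (Finset.mem_erase.2 ⟨(hq x hx).2, ?_⟩)
      rcases h with h | h
      · exact hX2 x (Finset.mem_coe.1 h)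
      · obtain ⟨w', hw'⟩ := near G c u c' hu hcc w r hwl x (hq x hx).1
        exact hX3 x w' h hw'
    exact ⟨y, hy, hqZ y q.end_mem_support, q, hqZ⟩

/-- The main result: every shortest odd cycle can be removed. -/
theorem main {V : Type} [Fintype V] (G : SimpleGraph V) (k : ℕ)
    (hconn : ∀ S : Finset V, S.card < k → ∀ a b, a ∉ (S : Set V) → b ∉ (S : Set V) →
      Jn G (S : Set V) a b) (v : V) (p : G.Walk v v)
    (hdeg : ∀ c ∈ p.support, k + 3 ≤ (G.neighborSet c).ncard)
    (hdet : ∀ c ∈ p.support, Det G k c) (hodd : Odd p.length)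
    (hmin : ∀ (u : V) (w : G.Walk u u), Odd w.length → p.length ≤ w.length) :
    k < ({x : V | x ∉ p.support}).ncard ∧
      ∀ S : Finset V, S.card < k →
        (G.induce ({x : V | x ∉ p.support} \ (↑S : Set V))).Connected := by
  have hk : k < ({x : V | x ∉ p.support}).ncard := by
    have h1 := outside G k v p hdeg hodd hmin v p.start_mem_support
    have hsub : G.neighborSet v \ {x | x ∈ p.support} ⊆ {x : V | x ∉ p.support} :=
      fun x hx => hx.2
    have h2 := Set.ncard_le_ncard hsub (Set.toFinite _)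
    omega
  refine ⟨hk, fun S hS => ?_⟩
  have hZ : ∀ x : V, x ∈ ({x : V | x ∉ p.support} \ (↑S : Set V)) ↔
      x ∉ ((S : Set V) ∪ {x | x ∈ p.support}) := by
    intro x
    constructor
    · rintro ⟨h1, h2⟩ (h | h)
      · exact h2 h
      · exact h1 h
    · intro h
      exact ⟨fun h1 => h (Or.inr h1), fun h1 => h (Or.inl h1)⟩
  have hne : ∃ x : V, x ∈ ({x : V | x ∉ p.support} \ (↑S : Set V)) := by
    by_contra hcon
    push Not at hcon
    have hsub : {x : V | x ∉ p.support} ⊆ (S : Set V) := by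
      intro x hx
      by_contra hxS
      exact hcon x ⟨hx, hxS⟩
    have h1 := Set.ncard_le_ncard hsub (Set.toFinite _)
    rw [Set.ncard_coe_finset] at h1
    omega
  obtain ⟨x0, hx0⟩ := hne
  have : Nonempty (({x : V | x ∉ p.support} \ (↑S : Set V)) : Set V) := ⟨⟨x0, hx0⟩⟩
  refine ⟨fun a b => ?_⟩
  obtain ⟨w, hw⟩ := conn_cycle G k hconn v p hdeg hdet hodd hmin S hS a.1 b.1
    ((hZ _).1 a.2) ((hZ _).1 b.2)
  exact ⟨w.induce _ (fun x hx => (hZ x).2 (hw x hx))⟩

end Pool.Agent.Detour
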