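import Pool.Agent.Lib.MP_dffe52_co.Detour.C

/-! Short detours from maps that move every vertex to a neighbour, and Cayley graphs. -/

set_option autoImplicit false

namespace Pool.Agent.Detour

open SimpleGraph

/-- the connectivity hypothesis in terms of walks -/
theorem jn_of_induce {V : Type} (G : SimpleGraph V) (S : Set V)
    (h : (G.induce Sᶜ).Connected) : ∀ a b, a ∉ S → b ∉ S → Jn G S a b := by
  intro a b ha hb
  obtain ⟨w⟩ := h.preconnected ⟨a, ha⟩ ⟨b, hb⟩
  have hsup : ∀ x ∈ (w.map (SimpleGraph.Embedding.induce (G := G) Sᶜ).toHom).support,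
      x ∉ S := by
    intro x hx
    rw [Walk.support_map, List.mem_map] at hx
    obtain ⟨y, -, rfl⟩ := hx
    exact y.2
  exact ⟨_, hsup⟩

theorem det_of_maps {V ι : Type} (G : SimpleGraph V) (k : ℕ) (A : Finset ι) (φ : ι → V → V)
    (hφ : ∀ i ∈ A, ∀ x y, G.Adj x y → G.Adj (φ i x) (φ i y))
    (h1 : ∀ i ∈ A, ∀ x, G.Adj x (φ i x))
    (h2 : ∀ i ∈ A, ∀ j ∈ A, ∀ x, φ i x = φ j x → i = j) (hA : 3 * k + 19 ≤ A.card) (c : V) :
    Det G k c := by
  classical
  intro u v hu hv _
  refine ⟨4, fun X hX huX hvX => ?_⟩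
  have hcard : ∀ x : V, (A.filter (fun i => φ i x ∈ X)).card ≤ X.card := by
    intro x
    refine Finset.card_le_card_of_injOn (fun i => φ i x) ?_ ?_
    · intro i hi
      exact (Finset.mem_filter.1 (Finset.mem_coe.1 hi)).2
    · intro i hi j hj hij
      exact h2 i (Finset.mem_filter.1 (Finset.mem_coe.1 hi)).1 j
        (Finset.mem_filter.1 (Finset.mem_coe.1 hj)).1 x hij
  have hex : ∃ i ∈ A, φ i u ∉ X ∧ φ i c ∉ X ∧ φ i v ∉ X := by
    by_contra hcon
    push Not at hcon
    have hsub : A ⊆ (A.filter (fun i => φ i u ∈ X) ∪ A.filter (fun i => φ i c ∈ X)) ∪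
        A.filter (fun i => φ i v ∈ X) := by
      intro i hi
      rw [Finset.mem_union, Finset.mem_union, Finset.mem_filter, Finset.mem_filter,
        Finset.mem_filter]
      by_cases h3 : φ i u ∈ X
      · exact Or.inl (Or.inl ⟨hi, h3⟩)
      · by_cases h4 : φ i c ∈ X
        · exact Or.inl (Or.inr ⟨hi, h4⟩)
        · exact Or.inr ⟨hi, hcon i hi h3 h4⟩
    have h3 := Finset.card_le_card hsub
    have h4 := Finset.card_union_le (A.filter (fun i => φ i u ∈ X) ∪
      A.filter (fun i => φ i c ∈ X)) (A.filter (fun i => φ i v ∈ X))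
    have h5 := Finset.card_union_le (A.filter (fun i => φ i u ∈ X))
      (A.filter (fun i => φ i c ∈ X))
    have h6 := hcard u
    have h7 := hcard c
    have h8 := hcard v
    omega
  obtain ⟨i, hi, hiu, hic, hiv⟩ := hex
  refine ⟨Walk.cons (h1 i hi u) (Walk.cons (hφ i hi u c hu.symm)
    (Walk.cons (hφ i hi c v hv) (Walk.cons (h1 i hi v).symm Walk.nil))), by simp, ?_⟩
  intro x hx
  simp only [Walk.support_cons, Walk.support_nil, List.mem_cons, List.not_mem_nil,
    or_false] at hx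
  rcases hx with rfl | rfl | rfl | rfl | rfl
  · exact huX
  · exact hiu
  · exact hic
  · exact hiv
  · exact hvX

theorem deg_of_maps {V ι : Type} [Fintype V] (G : SimpleGraph V) (k : ℕ) (A : Finset ι)
    (φ : ι → V → V) (h1 : ∀ i ∈ A, ∀ x, G.Adj x (φ i x))
    (h2 : ∀ i ∈ A, ∀ j ∈ A, ∀ x, φ i x = φ j x → i = j) (hA : 3 * k + 19 ≤ A.card) (c : V) :
    k + 3 ≤ (G.neighborSet c).ncard := by
  classical
  have h3 : (A.image (fun i => φ i c)).card = A.card := by
    refine Finset.card_image_of_injOn ?_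
    intro i hi j hj hij
    exact h2 i (Finset.mem_coe.1 hi) j (Finset.mem_coe.1 hj) c hij
  have hsub : (↑(A.image (fun i => φ i c)) : Set V) ⊆ G.neighborSet c := by
    intro x hx
    rw [Finset.mem_coe, Finset.mem_image] at hx
    obtain ⟨i, hi, rfl⟩ := hx
    exact h1 i hi c
  have h4 := Set.ncard_le_ncard hsub (Set.toFinite _)
  rw [Set.ncard_coe_finset, h3] at h4
  omega

/-- Graphs with many maps that preserve adjacency and move every vertex to a neighbour. -/
theorem main_maps {V ι : Type} [Fintype V] (G : SimpleGraph V) (k : ℕ) (A : Finset ι)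
    (φ : ι → V → V)
    (hφ : ∀ i ∈ A, ∀ x y, G.Adj x y → G.Adj (φ i x) (φ i y))
    (h1 : ∀ i ∈ A, ∀ x, G.Adj x (φ i x))
    (h2 : ∀ i ∈ A, ∀ j ∈ A, ∀ x, φ i x = φ j x → i = j) (hA : 3 * k + 19 ≤ A.card)
    (hG : G.Connected) (v : V) (p : G.Walk v v) (hodd : Odd p.length)
    (hmin : ∀ (u : V) (w : G.Walk u u), Odd w.length → p.length ≤ w.length) :
    k < ({x : V | x ∉ p.support}).ncard ∧
      ∀ S : Finset V, S.card < k →
        (G.induce ({x : V | x ∉ p.support} \ (↑S : Set V))).Connected := by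
  have hdet := det_of_maps G k A φ hφ h1 h2 hA
  have hdeg := deg_of_maps G k A φ h1 h2 hA
  exact main G k (fun S hS => conn_sub G k hG hdeg hdet S hS) v p (fun c _ => hdeg c)
    (fun c _ => hdet c) hodd hmin

end Pool.Agent.Detour
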