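import Pool.Agent.Lib.MP_dffe52_co.Detour.D

/-! The statements for shortest odd cycles. -/

set_option autoImplicit false

namespace Pool.Agent.Detour

open SimpleGraph

theorem min_of_cycles {V : Type} (G : SimpleGraph V) (n : ℕ)
    (h : ∀ (u : V) (q : G.Walk u u), q.IsCycle → Odd q.length → n ≤ q.length) :
    ∀ (u : V) (w : G.Walk u u), Odd w.length → n ≤ w.length := by
  intro u w hw
  obtain ⟨v, p, hp, hpo, hpl⟩ := odd_cycle_le G u w hw
  exact (h v p hp hpo).trans hpl

theorem main_det (k : ℕ) (V : Type) [Fintype V] (G : SimpleGraph V)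
    (hG : ∀ S : Finset V, S.card < k → (G.induce ((↑S : Set V)ᶜ)).Connected)
    (v : V) (p : G.Walk v v) (hodd : Odd p.length)
    (hmin : ∀ (u : V) (q : G.Walk u u), q.IsCycle → Odd q.length → p.length ≤ q.length)
    (hdeg : ∀ c ∈ p.support, k + 3 ≤ (G.neighborSet c).ncard)
    (hdet : ∀ c ∈ p.support, ∀ u w : V, G.Adj c u → G.Adj c w → u ≠ w →
      ∃ r : ℕ, ∀ X : Finset V, X.card ≤ k + r + 2 → u ∉ X → w ∉ X →
        ∃ q : G.Walk u w, q.length ≤ r ∧ ∀ x ∈ q.support, x ∉ X) :
    k < ({x : V | x ∉ p.support}).ncard ∧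
      ∀ S : Finset V, S.card < k →
        (G.induce ({x : V | x ∉ p.support} \ (↑S : Set V))).Connected :=
  main G k (fun S hS => jn_of_induce G (S : Set V) (hG S hS)) v p hdeg hdet hodd
    (min_of_cycles G p.length hmin)

theorem main_cayley (k : ℕ) (V : Type) [Fintype V] [Group V] (G : SimpleGraph V)
    (A : Finset V) (hG : G.Connected)
    (hinv : ∀ g x y : V, G.Adj x y → G.Adj (g * x) (g * y))
    (hA : ∀ a ∈ A, G.Adj 1 a ∧ ∀ g : V, g * a * g⁻¹ ∈ A) (hcard : 3 * k + 19 ≤ A.card)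
    (v : V) (p : G.Walk v v) (hodd : Odd p.length)
    (hmin : ∀ (u : V) (q : G.Walk u u), q.IsCycle → Odd q.length → p.length ≤ q.length) :
    k < ({x : V | x ∉ p.support}).ncard ∧
      ∀ S : Finset V, S.card < k →
        (G.induce ({x : V | x ∉ p.support} \ (↑S : Set V))).Connected := by
  refine main_maps G k A (fun a x => a * x) (fun a _ x y h => hinv a x y h) ?_ ?_ hcard hG v p
    hodd (min_of_cycles G p.length hmin)
  · intro a ha x
    have h1 := (hA a ha).2 x⁻¹
    have h2 := hinv x 1 _ (hA _ h1).1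
    have h3 : x * (x⁻¹ * a * x⁻¹⁻¹) = a * x := by group
    rw [h3, mul_one] at h2
    exact h2
  · intro a _ b _ x h
    exact mul_right_cancel h

end Pool.Agent.Detour
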