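import Pool.Agent.Lib.MP_dffe52_co.Detour.E

/-! A vertex has at most three neighbours on a shortest odd cycle; expanding graphs. -/

set_option autoImplicit false

namespace Pool.Agent.Detour

open SimpleGraph

/-- every vertex has at most three neighbours on a shortest odd closed walk -/
theorem few3 {V : Type} [Fintype V] (G : SimpleGraph V) (v : V) (p : G.Walk v v)
    (hodd : Odd p.length)
    (hmin : ∀ (u : V) (w : G.Walk u u), Odd w.length → p.length ≤ w.length)
    (a : V) : (G.neighborSet a ∩ {x | x ∈ p.support}).ncard ≤ 3 := by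
  classical
  by_cases hne : ∃ c, G.Adj a c ∧ c ∈ p.support
  · obtain ⟨c, hac, hc⟩ := hne
    obtain ⟨q, hql, hqs⟩ : ∃ q : G.Walk c c, q.length = p.length ∧
        ∀ z, z ∈ p.support → z ∈ q.support := by
      refine ⟨p.rotate c hc, ?_, fun z hz => (Walk.mem_support_rotate_iff p c hc).2 hz⟩
      have h1 := congrArg Walk.length (Walk.take_spec p hc)
      rw [Walk.length_append] at h1
      rw [Walk.rotate, Walk.length_append]
      omega
    have hsub : G.neighborSet a ∩ {x | x ∈ p.support} ⊆
        (↑({q.getVert 0, q.getVert 2, q.getVert (q.length - 2)} : Finset V) : Set V) := by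
      intro z hz
      obtain ⟨haz, hzp⟩ := hz
      have haz' : G.Adj a z := haz
      obtain ⟨i, hi, hil⟩ := Walk.mem_support_iff_exists_getVert.1 (hqs z hzp)
      subst hi
      have hA : ((Walk.cons hac.symm (Walk.cons haz' Walk.nil)).append
          (q.take i).reverse).length = 2 + i := by
        rw [Walk.length_append, Walk.length_reverse, Walk.take_length, Walk.length_cons,
          Walk.length_cons, Walk.length_nil]
        omega
      have hB : ((Walk.cons hac.symm (Walk.cons haz' Walk.nil)).append (q.drop i)).length =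
          2 + (q.length - i) := by
        rw [Walk.length_append, Walk.drop_length, Walk.length_cons, Walk.length_cons,
          Walk.length_nil]
      rw [Finset.mem_coe, Finset.mem_insert, Finset.mem_insert, Finset.mem_singleton]
      rw [← hql] at hodd
      obtain ⟨b, hb⟩ := hodd
      rcases Nat.even_or_odd i with he | ho
      · obtain ⟨j, hj⟩ := he
        have h2 : Odd (2 + (q.length - i)) := ⟨1 + b - j, by omega⟩
        have h3 := hmin _ _ (by rw [hB]; exact h2)
        rw [hB] at h3
        have h4 : i = 0 ∨ i = 2 := by omega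
        rcases h4 with h4 | h4
        · exact Or.inl (by rw [h4])
        · exact Or.inr (Or.inl (by rw [h4]))
      · obtain ⟨j, hj⟩ := ho
        have h2 : Odd (2 + i) := ⟨1 + j, by omega⟩
        have h3 := hmin _ _ (by rw [hA]; exact h2)
        rw [hA] at h3
        have h4 : i = q.length ∨ i = q.length - 2 := by omega
        rcases h4 with h4 | h4
        · exact Or.inl (by rw [h4, q.getVert_length, q.getVert_zero])
        · exact Or.inr (Or.inr (by rw [h4]))
    have h1 := Set.ncard_le_ncard hsub (Set.toFinite _)
    rw [Set.ncard_coe_finset] at h1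
    exact h1.trans Finset.card_le_three
  · have h0 : G.neighborSet a ∩ {x | x ∈ p.support} = ∅ := by
      rw [Set.eq_empty_iff_forall_notMem]
      rintro x ⟨h1, h2⟩
      exact hne ⟨x, h1, h2⟩
    rw [h0, Set.ncard_empty]
    omega

/-- Expanding graphs. -/
theorem main_exp (k : ℕ) (V : Type) [Fintype V] (G : SimpleGraph V)
    (v : V) (p : G.Walk v v) (hp : p.IsCycle) (hodd : Odd p.length)
    (hmin : ∀ (u : V) (q : G.Walk u u), q.IsCycle → Odd q.length → p.length ≤ q.length)
    (hexp : ∀ A : Finset V, A.Nonempty → 2 * A.card ≤ Fintype.card V →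
      ({y : V | y ∉ A ∧ ∃ a ∈ A, G.Adj a y}).ncard < p.length + k →
      ∃ a ∈ A, k + 3 ≤ (G.neighborSet a \ (↑A : Set V)).ncard) :
    k < ({x : V | x ∉ p.support}).ncard ∧
      ∀ S : Finset V, S.card < k →
        (G.induce ({x : V | x ∉ p.support} \ (↑S : Set V))).Connected := by
  classical
  have hmin' := min_of_cycles G p.length hmin
  have hV : 2 ≤ Fintype.card V := by
    have h3 := hp.three_le_length
    have h4 := hp.support_nodup.length_le_card
    rw [List.length_tail, Walk.length_support] at h4
    omega
  have hk : k < ({x : V | x ∉ p.support}).ncard := by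
    have hdeg : k + 3 ≤ (G.neighborSet v).ncard := by
      have hbd : {y : V | y ∉ ({v} : Finset V) ∧ ∃ a ∈ ({v} : Finset V), G.Adj a y} ⊆
          G.neighborSet v := by
        rintro y ⟨-, a, ha, hay⟩
        rw [Finset.mem_singleton] at ha
        rw [ha] at hay
        exact hay
      have h5 := Set.ncard_le_ncard hbd (Set.toFinite _)
      have h6 := hp.three_le_length
      by_cases h7 : (G.neighborSet v).ncard < p.length + k
      · obtain ⟨a, ha, hak⟩ := hexp {v} (Finset.singleton_nonempty v)
          (by rw [Finset.card_singleton]; omega) (by omega)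
        rw [Finset.mem_singleton] at ha
        rw [ha] at hak
        exact hak.trans (Set.ncard_le_ncard Set.sdiff_subset (Set.toFinite _))
      · omega
    have h1 := few G v p hodd hmin' v p.start_mem_support
    have hsub : G.neighborSet v ⊆
        (G.neighborSet v ∩ {x | x ∈ p.support}) ∪ {x : V | x ∉ p.support} := by
      intro x hx
      by_cases hxp : x ∈ p.support
      · exact Or.inl ⟨hx, hxp⟩
      · exact Or.inr hxp
    have h2 := Set.ncard_le_ncard hsub (Set.toFinite _)
    have h3 := Set.ncard_union_le (G.neighborSet v ∩ {x | x ∈ p.support})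
      {x : V | x ∉ p.support}
    omega
  refine ⟨hk, fun S hS => ?_⟩
  set Z : Set V := (S : Set V) ∪ {x | x ∈ p.support} with hZdef
  have hZ : ∀ x : V, x ∈ ({x : V | x ∉ p.support} \ (↑S : Set V)) ↔ x ∉ Z := by
    intro x
    constructor
    · rintro ⟨h1, h2⟩ (h | h)
      · exact h2 h
      · exact h1 h
    · intro h
      exact ⟨fun h1 => h (Or.inr h1), fun h1 => h (Or.inl h1)⟩
  have hne : ∃ x : V, x ∈ ({x : V | x ∉ p.support} \ (↑S : Set V)) := by
    by_contra hcon
    push Not at hcon
    have hsub : {x : V | x ∉ p.support} ⊆ (S : Set V) := by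
      intro x hx
      by_contra hxS
      exact hcon x ⟨hx, hxS⟩
    have h1 := Set.ncard_le_ncard hsub (Set.toFinite _)
    rw [Set.ncard_coe_finset] at h1
    omega
  obtain ⟨x0, hx0⟩ := hne
  have : Nonempty (({x : V | x ∉ p.support} \ (↑S : Set V)) : Set V) := ⟨⟨x0, hx0⟩⟩
  -- a set closed under adjacency outside `Z` is large
  have hlarge : ∀ a : V, a ∉ Z →
      Fintype.card V < 2 * (Finset.univ.filter (fun x => Jn G Z a x)).card := by
    intro a ha
    by_contra hcon
    push Not at hcon
    have hbd : {y : V | y ∉ Finset.univ.filter (fun x => Jn G Z a x) ∧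
        ∃ x ∈ Finset.univ.filter (fun x => Jn G Z a x), G.Adj x y} ⊆ Z := by
      rintro y ⟨hy, x, hx, hxy⟩
      by_contra hyZ
      have hax : Jn G Z a x := (Finset.mem_filter.1 hx).2
      have hxZ : x ∉ Z := by
        obtain ⟨w, hw⟩ := hax
        exact hw x w.end_mem_support
      exact hy (Finset.mem_filter.2 ⟨Finset.mem_univ y, hax.trans (Jn.adj hxZ hyZ hxy)⟩)
    have hZc : Z.ncard < p.length + k := by
      have h1 := Set.ncard_union_le (S : Set V) {x | x ∈ p.support}
      rw [Set.ncard_coe_finset] at h1
      have hsub : {x | x ∈ p.support} ⊆ (↑(p.support.tail.toFinset) : Set V) := by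
        intro x hx
        rw [Finset.mem_coe, List.mem_toFinset]
        have hx' : x ∈ v :: p.support.tail := by
          rw [Walk.cons_tail_support]
          exact hx
        rw [List.mem_cons] at hx'
        rcases hx' with hx' | hx'
        · rw [hx']
          exact Walk.end_mem_tail_support hp.not_nil
        · exact hx'
      have h2 := Set.ncard_le_ncard hsub (Set.toFinite _)
      rw [Set.ncard_coe_finset] at h2
      have h3 := List.toFinset_card_le p.support.tail
      rw [List.length_tail, Walk.length_support] at h3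
      rw [hZdef]
      omega
    obtain ⟨x, hx, hxk⟩ := hexp (Finset.univ.filter (fun x => Jn G Z a x))
      ⟨a, Finset.mem_filter.2 ⟨Finset.mem_univ _, Jn.refl ha⟩⟩ hcon
      ((Set.ncard_le_ncard hbd (Set.toFinite _)).trans_lt hZc)
    have hax : Jn G Z a x := (Finset.mem_filter.1 hx).2
    have hxZ : x ∉ Z := by
      obtain ⟨w, hw⟩ := hax
      exact hw x w.end_mem_support
    have hsub : G.neighborSet x \ (↑(Finset.univ.filter (fun x => Jn G Z a x)) : Set V) ⊆
        (G.neighborSet x ∩ {x | x ∈ p.support}) ∪ (S : Set V) := by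
      intro y hy
      have hxy : G.Adj x y := hy.1
      by_cases hyZ : y ∈ Z
      · rcases hyZ with h | h
        · exact Or.inr h
        · exact Or.inl ⟨hxy, h⟩
      · exact absurd (Finset.mem_coe.2 (Finset.mem_filter.2 ⟨Finset.mem_univ y,
          hax.trans (Jn.adj hxZ hyZ hxy)⟩)) hy.2
    have h1 := Set.ncard_le_ncard hsub (Set.toFinite _)
    have h2 := Set.ncard_union_le (G.neighborSet x ∩ {x | x ∈ p.support}) (S : Set V)
    rw [Set.ncard_coe_finset] at h2
    have h3 := few3 G v p hodd hmin' x
    omega
  have hsymm : ∀ a b : V, Jn G Z a b → Jn G Z b a := by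
    rintro a b ⟨w, hw⟩
    refine ⟨w.reverse, fun x hx => hw x ?_⟩
    rw [Walk.support_reverse, List.mem_reverse] at hx
    exact hx
  refine ⟨fun a b => ?_⟩
  have haZ := (hZ _).1 a.2
  have hbZ := (hZ _).1 b.2
  have hJ : Jn G Z a.1 b.1 := by
    have h1 := hlarge a.1 haZ
    have h2 := hlarge b.1 hbZ
    by_contra hcon
    have hdisj : Disjoint (Finset.univ.filter (fun x => Jn G Z a.1 x))
        (Finset.univ.filter (fun x => Jn G Z b.1 x)) := by
      rw [Finset.disjoint_left]
      intro x hx hx'
      exact hcon ((Finset.mem_filter.1 hx).2.trans (hsymm _ _ (Finset.mem_filter.1 hx').2))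
    have h3 := Finset.card_union_of_disjoint hdisj
    have h4 := Finset.card_le_univ ((Finset.univ.filter (fun x => Jn G Z a.1 x)) ∪
      (Finset.univ.filter (fun x => Jn G Z b.1 x)))
    omega
  obtain ⟨w, hw⟩ := hJ
  exact ⟨w.induce _ (fun x hx => (hZ x).2 (hw x hx))⟩

end Pool.Agent.Detour
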