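import Pool.Agent.Lib.MP_dffe52_co.Detour.F

/-! Products of graphs: lifting and projecting walks. -/

set_option autoImplicit false

namespace Pool.Agent.Detour

open SimpleGraph

theorem Jn.symm {V : Type} {G : SimpleGraph V} {Z : Set V} {a b : V} (h : Jn G Z a b) :
    Jn G Z b a := by
  obtain ⟨w, hw⟩ := h
  refine ⟨w.reverse, fun x hx => hw x ?_⟩
  rw [Walk.support_reverse, List.mem_reverse] at hx
  exact hx

theorem Jn.not_mem {V : Type} {G : SimpleGraph V} {Z : Set V} {a b : V} (h : Jn G Z a b) :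
    b ∉ Z := by
  obtain ⟨w, hw⟩ := h
  exact hw b w.end_mem_support

/-- push a walk forward along a map that preserves adjacency or contracts edges -/
theorem Jn.push {V W : Type} {G : SimpleGraph V} {H : SimpleGraph W} {Z : Set V} {Y : Set W}
    (f : V → W) (hf : ∀ x y, G.Adj x y → H.Adj (f x) (f y) ∨ f x = f y)
    (hZ : ∀ x, x ∉ Z → f x ∉ Y) {a b : V} (h : Jn G Z a b) : Jn H Y (f a) (f b) := by
  obtain ⟨w, hw⟩ := h
  induction w with
  | @nil a => exact Jn.refl (hZ a (hw a (by simp)))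
  | @cons a c b h q ih =>
    have ha : a ∉ Z := hw a (by rw [Walk.support_cons]; exact List.mem_cons_self)
    have hc : c ∉ Z := hw c (by
      rw [Walk.support_cons]; exact List.mem_cons_of_mem _ q.start_mem_support)
    have h1 := ih (fun z hz => hw z (by rw [Walk.support_cons]; exact List.mem_cons_of_mem _ hz))
    rcases hf a c h with h2 | h2
    · exact (Jn.adj (hZ a ha) (hZ c hc) h2).trans h1
    · rw [h2]; exact h1

/-- from walks to the induced subgraph -/
theorem finish {V : Type} [Fintype V] (G : SimpleGraph V) (k : ℕ) (C : V → Prop)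
    (hk : k < ({x : V | ¬ C x}).ncard) (S : Finset V) (hS : S.card < k)
    (h : ∀ a b, a ∉ ((S : Set V) ∪ {x | C x}) → b ∉ ((S : Set V) ∪ {x | C x}) →
      Jn G ((S : Set V) ∪ {x | C x}) a b) :
    (G.induce ({x : V | ¬ C x} \ (↑S : Set V))).Connected := by
  have hZ : ∀ x : V, x ∈ ({x : V | ¬ C x} \ (↑S : Set V)) ↔
      x ∉ ((S : Set V) ∪ {x | C x}) := by
    intro x
    constructor
    · rintro ⟨h1, h2⟩ (h | h)
      · exact h2 h
      · exact h1 h
    · intro h
      exact ⟨fun h1 => h (Or.inr h1), fun h1 => h (Or.inl h1)⟩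
  have hne : ∃ x : V, x ∈ ({x : V | ¬ C x} \ (↑S : Set V)) := by
    by_contra hcon
    push Not at hcon
    have hsub : {x : V | ¬ C x} ⊆ (S : Set V) := by
      intro x hx
      by_contra hxS
      exact hcon x ⟨hx, hxS⟩
    have h1 := Set.ncard_le_ncard hsub (Set.toFinite _)
    rw [Set.ncard_coe_finset] at h1
    omega
  obtain ⟨x0, hx0⟩ := hne
  have : Nonempty (({x : V | ¬ C x} \ (↑S : Set V)) : Set V) := ⟨⟨x0, hx0⟩⟩
  refine ⟨fun a b => ?_⟩
  obtain ⟨w, hw⟩ := h a.1 b.1 ((hZ _).1 a.2) ((hZ _).1 b.2)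
  exact ⟨w.induce _ (fun x hx => (hZ x).2 (hw x hx))⟩

/-- degrees in a highly connected graph -/
theorem deg_of_conn {V : Type} [Fintype V] (G : SimpleGraph V) (n : ℕ)
    (hn : n < Fintype.card V)
    (hconn : ∀ S : Finset V, S.card < n → ∀ a b, a ∉ (S : Set V) → b ∉ (S : Set V) →
      Jn G (S : Set V) a b) (x : V) : n ≤ (G.neighborSet x).ncard := by
  classical
  by_contra hcon
  push Not at hcon
  set S : Finset V := (Set.toFinite (G.neighborSet x)).toFinset with hSdef
  have hmem : ∀ y, y ∈ S ↔ G.Adj x y := by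
    intro y
    rw [hSdef, Set.Finite.mem_toFinset, mem_neighborSet]
  have hScard : S.card = (G.neighborSet x).ncard := by
    rw [hSdef, Set.ncard_eq_toFinset_card _ (Set.toFinite _)]
  have hx : x ∉ S := by
    rw [hmem]
    exact G.loopless.irrefl x
  have hex : ∃ y, y ∉ insert x S := by
    by_contra hall
    push Not at hall
    have h1 : (Finset.univ : Finset V) ⊆ insert x S := fun y _ => hall y
    have h2 := Finset.card_le_card h1
    have h3 := Finset.card_insert_le x S
    rw [Finset.card_univ] at h2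
    omega
  obtain ⟨y, hy⟩ := hex
  rw [Finset.mem_insert, not_or] at hy
  obtain ⟨w, hw⟩ := hconn S (by omega) x y (fun h => hx (Finset.mem_coe.1 h))
    (fun h => hy.2 (Finset.mem_coe.1 h))
  cases w with
  | nil => exact hy.1 rfl
  | @cons _ z _ h q =>
    exact hw z (by rw [Walk.support_cons]; exact List.mem_cons_of_mem _ q.start_mem_support)
      (Finset.mem_coe.2 ((hmem z).2 h))

/-- The data of a product structure on a graph. -/
structure Pr {V V1 V2 : Type} (X : SimpleGraph V) (F1 : SimpleGraph V1) (F2 : SimpleGraph V2)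
    (f1 : V → V1) (f2 : V → V2) (m : V1 → V2 → V) : Prop where
  e1 : ∀ a b, f1 (m a b) = a
  e2 : ∀ a b, f2 (m a b) = b
  em : ∀ x, m (f1 x) (f2 x) = x
  adj : ∀ x y, X.Adj x y ↔ (F1.Adj (f1 x) (f1 y) ∧ f2 x = f2 y) ∨
    (F2.Adj (f2 x) (f2 y) ∧ f1 x = f1 y)

theorem Pr.swap {V V1 V2 : Type} {X : SimpleGraph V} {F1 : SimpleGraph V1}
    {F2 : SimpleGraph V2} {f1 : V → V1} {f2 : V → V2} {m : V1 → V2 → V}
    (h : Pr X F1 F2 f1 f2 m) : Pr X F2 F1 f2 f1 (fun b a => m a b) :=
  ⟨fun a b => h.e2 b a, fun a b => h.e1 b a, h.em, fun x y => by rw [h.adj x y, or_comm]⟩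

theorem Pr.lift {V V1 V2 : Type} {X : SimpleGraph V} {F1 : SimpleGraph V1}
    {F2 : SimpleGraph V2} {f1 : V → V1} {f2 : V → V2} {m : V1 → V2 → V}
    (h : Pr X F1 F2 f1 f2 m) {A : Set V1} {Z : Set V} (b : V2)
    (hZ : ∀ z, z ∉ A → m z b ∉ Z) {a a' : V1} (hJ : Jn F1 A a a') :
    Jn X Z (m a b) (m a' b) := by
  refine Jn.push (fun z => m z b) (fun x y hxy => Or.inl ?_) hZ hJ
  rw [h.adj]
  simp only [h.e1, h.e2]
  exact Or.inl ⟨hxy, trivial⟩

theorem Pr.proj {V V1 V2 : Type} {X : SimpleGraph V} {F1 : SimpleGraph V1}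
    {F2 : SimpleGraph V2} {f1 : V → V1} {f2 : V → V2} {m : V1 → V2 → V}
    (h : Pr X F1 F2 f1 f2 m) {A : Set V1} {Z : Set V}
    (hZ : ∀ x, x ∉ Z → f1 x ∉ A) {x y : V} (hJ : Jn X Z x y) :
    Jn F1 A (f1 x) (f1 y) := by
  refine Jn.push f1 (fun x y hxy => ?_) hZ hJ
  rcases (h.adj x y).1 hxy with h1 | h1
  · exact Or.inl h1.1
  · exact Or.inr h1.2

/-- the two projections of a walk have together the same length -/
theorem Pr.split {V V1 V2 : Type} {X : SimpleGraph V} {F1 : SimpleGraph V1}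
    {F2 : SimpleGraph V2} {f1 : V → V1} {f2 : V → V2} {m : V1 → V2 → V}
    (h : Pr X F1 F2 f1 f2 m) {x y : V} (w : X.Walk x y) :
    ∃ (w1 : F1.Walk (f1 x) (f1 y)) (w2 : F2.Walk (f2 x) (f2 y)),
      w1.length + w2.length = w.length := by
  induction w with
  | nil => exact ⟨Walk.nil, Walk.nil, rfl⟩
  | @cons x z y hxz q ih =>
    obtain ⟨w1, w2, hw⟩ := ih
    rcases (h.adj x z).1 hxz with h1 | h1
    · refine ⟨Walk.cons h1.1 w1, w2.copy h1.2.symm rfl, ?_⟩
      rw [Walk.length_cons, Walk.length_cons, Walk.length_copy]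
      omega
    · refine ⟨w1.copy h1.2.symm rfl, Walk.cons h1.1 w2, ?_⟩
      rw [Walk.length_cons, Walk.length_cons, Walk.length_copy]
      omega

/-- the degree in a product -/
theorem Pr.deg {V V1 V2 : Type} [Fintype V] [Fintype V1] [Fintype V2] {X : SimpleGraph V}
    {F1 : SimpleGraph V1}
    {F2 : SimpleGraph V2} {f1 : V → V1} {f2 : V → V2} {m : V1 → V2 → V}
    (h : Pr X F1 F2 f1 f2 m) (a : V1) (b : V2) :
    (X.neighborSet (m a b)).ncard ≤ (F1.neighborSet a).ncard + (F2.neighborSet b).ncard := by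
  have hsub : X.neighborSet (m a b) ⊆ (fun z => m z b) '' F1.neighborSet a ∪
      (fun z => m a z) '' F2.neighborSet b := by
    intro y hy
    have h1 := (h.adj _ _).1 hy
    rw [h.e1, h.e2] at h1
    rcases h1 with h1 | h1
    · refine Or.inl ⟨f1 y, h1.1, ?_⟩
      show m (f1 y) b = y
      rw [h1.2, h.em]
    · refine Or.inr ⟨f2 y, h1.1, ?_⟩
      show m a (f2 y) = y
      rw [h1.2, h.em]
  have h1 := Set.ncard_le_ncard hsub (Set.toFinite _)
  have h2 := Set.ncard_union_le ((fun z => m z b) '' F1.neighborSet a)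
    ((fun z => m a z) '' F2.neighborSet b)
  have h3 := Set.ncard_image_le (f := fun z => m z b) (Set.toFinite (F1.neighborSet a))
  have h4 := Set.ncard_image_le (f := fun z => m a z) (Set.toFinite (F2.neighborSet b))
  omega

/-- the size of a union of layers -/
theorem Pr.layers {V V1 V2 : Type} [Fintype V] [Fintype V1] [Fintype V2] [DecidableEq V1]
    {X : SimpleGraph V} {F1 : SimpleGraph V1}
    {F2 : SimpleGraph V2} {f1 : V → V1} {f2 : V → V2} {m : V1 → V2 → V}
    (h : Pr X F1 F2 f1 f2 m) (T : Finset V1) :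
    (Finset.univ.filter (fun x => f1 x ∈ T)).card ≤ T.card * Fintype.card V2 := by
  classical
  have h1 : (Finset.univ.filter (fun x => f1 x ∈ T)).card ≤
      (T ×ˢ (Finset.univ : Finset V2)).card := by
    refine Finset.card_le_card_of_injOn (fun x => (f1 x, f2 x)) ?_ ?_
    · intro x hx
      rw [Finset.mem_coe, Finset.mem_filter] at hx
      exact Finset.mem_coe.2 (Finset.mem_product.2 ⟨hx.2, Finset.mem_univ _⟩)
    · intro x _ y _ hxy
      rw [Prod.mk.injEq] at hxy
      rw [← h.em x, ← h.em y, hxy.1, hxy.2]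
  rwa [Finset.card_product, Finset.card_univ] at h1

end Pool.Agent.Detour
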