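import Pool.Agent.Lib.MP_dffe52_co.Detour.G

/-! Cartesian products: the two cases. -/

set_option autoImplicit false

namespace Pool.Agent.Detour

open SimpleGraph

/-- a part of smallest size -/
theorem small_fiber {V W : Type} [DecidableEq W] (S : Finset V) (f : V → W) (R : Finset W)
    (hR : R.Nonempty) : ∃ a ∈ R, R.card * (S.filter (fun x => f x = a)).card ≤ S.card := by
  obtain ⟨a, ha, hmin⟩ := Finset.exists_min_image R
    (fun a => (S.filter (fun x => f x = a)).card) hR
  refine ⟨a, ha, ?_⟩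
  have h1 : (S.filter (fun x => f x ∈ R)).card =
      ∑ b ∈ R, ((S.filter (fun x => f x ∈ R)).filter (fun x => f x = b)).card :=
    Finset.card_eq_sum_card_fiberwise (fun x hx => by
      rw [Finset.mem_coe, Finset.mem_filter] at hx
      exact Finset.mem_coe.2 hx.2)
  have h2 : ∀ b ∈ R, (S.filter (fun x => f x = a)).card ≤
      ((S.filter (fun x => f x ∈ R)).filter (fun x => f x = b)).card := by
    intro b hb
    refine (hmin b hb).trans (Finset.card_le_card ?_)
    intro x hx
    rw [Finset.mem_filter] at hx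
    rw [Finset.mem_filter, Finset.mem_filter]
    exact ⟨⟨hx.1, by rw [hx.2]; exact hb⟩, hx.2⟩
  have h3 := Finset.card_nsmul_le_sum R _ _ h2
  rw [← h1, smul_eq_mul] at h3
  exact h3.trans (Finset.card_filter_le _ _)

/-- First case: the factor that is crossed has large minimum degree. -/
theorem case_one {V V1 V2 : Type} [Fintype V] [Fintype V1] [Fintype V2] {X : SimpleGraph V}
    {F1 : SimpleGraph V1} {F2 : SimpleGraph V2} {f1 : V → V1} {f2 : V → V2} {m : V1 → V2 → V}
    (h : Pr X F1 F2 f1 f2 m) (k : ℕ)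
    (hconn : ∀ S : Finset V, S.card < 2 * k + 1 → ∀ a b, a ∉ (S : Set V) → b ∉ (S : Set V) →
      Jn X (S : Set V) a b) (hne : Nonempty V1)
    (t : V2) (ht : ∀ b b', b ≠ t → b' ≠ t → Jn F2 {t} b b')
    (hconn1 : ∀ a a', Jn F1 ∅ a a')
    (hdeg : ∀ b : V2, k ≤ (F2.neighborSet b).ncard) (P : V1 → Prop)
    (S : Finset V) (hS : S.card < k) :
    ∀ x y, x ∉ ((S : Set V) ∪ {x | P (f1 x) ∧ f2 x = t}) →
      y ∉ ((S : Set V) ∪ {x | P (f1 x) ∧ f2 x = t}) →
      Jn X ((S : Set V) ∪ {x | P (f1 x) ∧ f2 x = t}) x y := by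
  classical
  -- the free layers
  have hfreeZ : ∀ b, b ≠ t → (∀ x ∈ S, f2 x ≠ b) → ∀ a,
      m a b ∉ ((S : Set V) ∪ {x | P (f1 x) ∧ f2 x = t}) := by
    intro b hb hbS a hx
    rcases hx with hx | hx
    · exact hbS _ (Finset.mem_coe.1 hx) (h.e2 a b)
    · exact hb (by rw [← h.e2 a b]; exact hx.2)
  have hstep : ∀ x, x ∉ ((S : Set V) ∪ {x | P (f1 x) ∧ f2 x = t}) →
      ∃ b, b ≠ t ∧ (∀ y ∈ S, f2 y ≠ b) ∧
        Jn X ((S : Set V) ∪ {x | P (f1 x) ∧ f2 x = t}) x (m (f1 x) b) := by
    intro x hx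
    by_cases hfr : f2 x ∈ insert t (S.image f2)
    swap
    · rw [Finset.mem_insert, not_or] at hfr
      refine ⟨f2 x, hfr.1, fun y hy hyb => hfr.2 (Finset.mem_image.2 ⟨y, hy, hyb⟩), ?_⟩
      rw [h.em]
      exact Jn.refl hx
    have hex : ∃ b, F2.Adj (f2 x) b ∧ b ∉ insert t (S.image f2) := by
      by_contra hcon
      push Not at hcon
      have hsub : F2.neighborSet (f2 x) ⊆
          (↑((insert t (S.image f2)).erase (f2 x)) : Set V2) := by
        intro b hb
        have hb' : F2.Adj (f2 x) b := hb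
        exact Finset.mem_coe.2 (Finset.mem_erase.2 ⟨hb'.ne', hcon b hb⟩)
      have h1 := Set.ncard_le_ncard hsub (Set.toFinite _)
      rw [Set.ncard_coe_finset, Finset.card_erase_of_mem hfr] at h1
      have h2 := Finset.card_insert_le t (S.image f2)
      have h3 := Finset.card_image_le (s := S) (f := f2)
      have h4 := hdeg (f2 x)
      have h5 : 0 < (insert t (S.image f2)).card := Finset.card_pos.2 ⟨_, hfr⟩
      omega
    obtain ⟨b, hb, hbS⟩ := hex
    rw [Finset.mem_insert, not_or] at hbS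
    have hbS' : ∀ y ∈ S, f2 y ≠ b := fun y hy hyb =>
      hbS.2 (Finset.mem_image.2 ⟨y, hy, hyb⟩)
    refine ⟨b, hbS.1, hbS', Jn.adj hx (hfreeZ b hbS.1 hbS' _) ?_⟩
    rw [h.adj, h.e1, h.e2]
    exact Or.inr ⟨hb, rfl⟩
  -- a good crossing layer
  have hgood : ∃ a : V1, ∀ b b', b ∉ insert t ((S.filter (fun x => f1 x = a)).image f2) →
      b' ∉ insert t ((S.filter (fun x => f1 x = a)).image f2) →
      Jn F2 (↑(insert t ((S.filter (fun x => f1 x = a)).image f2)) : Set V2) b b' := by
    by_contra hcon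
    push Not at hcon
    obtain ⟨a, -, ha⟩ := small_fiber S f1 (Finset.univ : Finset V1) Finset.univ_nonempty
    obtain ⟨b, b', hb, hb', hJ⟩ := hcon a
    have hpos : ∀ a : V1, 1 ≤ (S.filter (fun x => f1 x = a)).card := by
      intro a
      by_contra h0
      have h0' : S.filter (fun x => f1 x = a) = ∅ := by
        rw [← Finset.card_eq_zero]
        omega
      obtain ⟨b, b', hb, hb', hJ⟩ := hcon a
      rw [h0', Finset.image_empty] at hb hb' hJ
      refine hJ ?_
      have h1 : ((insert t (∅ : Finset V2) : Finset V2) : Set V2) = {t} := by simp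
      rw [h1]
      rw [Finset.mem_insert, not_or] at hb hb'
      exact ht b b' hb.1 hb'.1
    have ha1 := hpos a
    rw [Finset.card_univ] at ha
    set T : Finset V2 := insert t ((S.filter (fun x => f1 x = a)).image f2) with hT
    have hTc : T.card ≤ (S.filter (fun x => f1 x = a)).card + 1 := by
      have h2 := Finset.card_insert_le t ((S.filter (fun x => f1 x = a)).image f2)
      have h3 := Finset.card_image_le (s := S.filter (fun x => f1 x = a)) (f := f2)
      rw [hT]
      omega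
    have hL := h.swap.layers T
    have h4 : T.card * Fintype.card V1 ≤ 2 * S.card := by
      have h5 : T.card ≤ 2 * (S.filter (fun x => f1 x = a)).card := by omega
      calc T.card * Fintype.card V1
          ≤ (2 * (S.filter (fun x => f1 x = a)).card) * Fintype.card V1 :=
            Nat.mul_le_mul_right _ h5
        _ = 2 * (Fintype.card V1 * (S.filter (fun x => f1 x = a)).card) := by ring
        _ ≤ 2 * S.card := Nat.mul_le_mul_left _ ha
    have h6 := hconn (Finset.univ.filter (fun x => f2 x ∈ T)) (by omega) (m a b) (m a b')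
      (fun hx => by
        rw [Finset.mem_coe, Finset.mem_filter, h.e2] at hx
        exact hb hx.2)
      (fun hx => by
        rw [Finset.mem_coe, Finset.mem_filter, h.e2] at hx
        exact hb' hx.2)
    have h7 := h.swap.proj (A := (T : Set V2)) (fun x hx hxT => hx (by
      rw [Finset.mem_coe, Finset.mem_filter]
      exact ⟨Finset.mem_univ _, Finset.mem_coe.1 hxT⟩)) h6
    rw [h.e2, h.e2] at h7
    exact hJ h7
  obtain ⟨a0, ha0⟩ := hgood
  intro x y hx hy
  obtain ⟨b, hb, hbS, hxb⟩ := hstep x hx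
  obtain ⟨b', hb', hbS', hyb⟩ := hstep y hy
  have h1 : Jn X ((S : Set V) ∪ {x | P (f1 x) ∧ f2 x = t}) (m (f1 x) b) (m a0 b) :=
    h.lift b (fun z _ => hfreeZ b hb hbS z) (hconn1 _ _)
  have h2 : Jn X ((S : Set V) ∪ {x | P (f1 x) ∧ f2 x = t}) (m (f1 y) b') (m a0 b') :=
    h.lift b' (fun z _ => hfreeZ b' hb' hbS' z) (hconn1 _ _)
  have hfree0 : ∀ b, b ≠ t → (∀ x ∈ S, f2 x ≠ b) →
      b ∉ insert t ((S.filter (fun x => f1 x = a0)).image f2) := by
    intro b hb hbS hmem
    rw [Finset.mem_insert, Finset.mem_image] at hmem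
    rcases hmem with hmem | ⟨z, hz, hzb⟩
    · exact hb hmem
    · exact hbS z (Finset.mem_filter.1 hz).1 hzb
  have h3 : Jn X ((S : Set V) ∪ {x | P (f1 x) ∧ f2 x = t}) (m a0 b) (m a0 b') := by
    refine h.swap.lift (A := (↑(insert t ((S.filter (fun x => f1 x = a0)).image f2)) : Set V2))
      a0 ?_ (ha0 b b' (hfree0 b hb hbS) (hfree0 b' hb' hbS'))
    intro z hz hmem
    refine hz (Finset.mem_coe.2 ?_)
    rcases hmem with hmem | hmem
    · refine Finset.mem_insert_of_mem (Finset.mem_image.2 ⟨m a0 z, Finset.mem_filter.2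
        ⟨Finset.mem_coe.1 hmem, h.e1 a0 z⟩, h.e2 a0 z⟩)
    · have h4 : z = t := by
        have := hmem.2
        rwa [h.e2] at this
      rw [h4]
      exact Finset.mem_insert_self _ _
  exact (hxb.trans h1).trans ((h3.trans h2.symm).trans hyb.symm)

/-- Second case: the factor that contains the cycle has large minimum degree. -/
theorem case_two {V V1 V2 : Type} [Fintype V] [Fintype V1] [Fintype V2] {X : SimpleGraph V}
    {F1 : SimpleGraph V1} {F2 : SimpleGraph V2} {f1 : V → V1} {f2 : V → V2} {m : V1 → V2 → V}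
    (h : Pr X F1 F2 f1 f2 m) (k : ℕ)
    (hconn : ∀ S : Finset V, S.card < 2 * k + 1 → ∀ a b, a ∉ (S : Set V) → b ∉ (S : Set V) →
      Jn X (S : Set V) a b) (hV2 : 2 ≤ Fintype.card V2)
    (t : V2)
    (hconn2 : ∀ b b', Jn F2 ∅ b b')
    (hdeg : ∀ a : V1, k + 2 ≤ (F1.neighborSet a).ncard) (P : V1 → Prop)
    (hP : ∀ a : V1, (F1.neighborSet a ∩ {x | P x}).ncard ≤ 3)
    (hP2 : ∀ a : V1, P a → (F1.neighborSet a ∩ {x | P x}).ncard ≤ 2)
    (S : Finset V) (hS : S.card < k) :
    ∀ x y, x ∉ ((S : Set V) ∪ {x | P (f1 x) ∧ f2 x = t}) →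
      y ∉ ((S : Set V) ∪ {x | P (f1 x) ∧ f2 x = t}) →
      Jn X ((S : Set V) ∪ {x | P (f1 x) ∧ f2 x = t}) x y := by
  classical
  have hfreeZ : ∀ a, ¬ P a → (∀ x ∈ S, f1 x ≠ a) → ∀ b,
      m a b ∉ ((S : Set V) ∪ {x | P (f1 x) ∧ f2 x = t}) := by
    intro a ha haS b hx
    rcases hx with hx | hx
    · exact haS _ (Finset.mem_coe.1 hx) (h.e1 a b)
    · exact ha (by rw [← h.e1 a b]; exact hx.1)
  have hstep : ∀ x, x ∉ ((S : Set V) ∪ {x | P (f1 x) ∧ f2 x = t}) →
      ∃ a, ¬ P a ∧ (∀ y ∈ S, f1 y ≠ a) ∧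
        Jn X ((S : Set V) ∪ {x | P (f1 x) ∧ f2 x = t}) x (m a (f2 x)) := by
    intro x hx
    by_cases hfr : P (f1 x) ∨ f1 x ∈ S.image f1
    swap
    · rw [not_or] at hfr
      refine ⟨f1 x, hfr.1, fun y hy hya => hfr.2 (Finset.mem_image.2 ⟨y, hy, hya⟩), ?_⟩
      rw [h.em]
      exact Jn.refl hx
    have hex : ∃ a, F1.Adj (f1 x) a ∧ ¬ P a ∧ a ∉ S.image f1 := by
      by_contra hcon
      push Not at hcon
      have hsub : F1.neighborSet (f1 x) ⊆
          (F1.neighborSet (f1 x) ∩ {x | P x}) ∪ (↑((S.image f1).erase (f1 x)) : Set V1) := by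
        intro a ha
        have ha' : F1.Adj (f1 x) a := ha
        by_cases hPa : P a
        · exact Or.inl ⟨ha, hPa⟩
        · exact Or.inr (Finset.mem_coe.2 (Finset.mem_erase.2 ⟨ha'.ne', hcon a ha hPa⟩))
      have h1 := Set.ncard_le_ncard hsub (Set.toFinite _)
      have h2 := Set.ncard_union_le (F1.neighborSet (f1 x) ∩ {x | P x})
        (↑((S.image f1).erase (f1 x)) : Set V1)
      rw [Set.ncard_coe_finset] at h2
      have h3 := Finset.card_image_le (s := S) (f := f1)
      have h4 := hdeg (f1 x)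
      have h5 := hP (f1 x)
      by_cases hmem : f1 x ∈ S.image f1
      · rw [Finset.card_erase_of_mem hmem] at h2
        have h6 : 0 < (S.image f1).card := Finset.card_pos.2 ⟨_, hmem⟩
        omega
      · rw [Finset.erase_eq_of_notMem hmem] at h2
        have h6 := hP2 (f1 x) (hfr.resolve_right hmem)
        rw [Finset.erase_eq_of_notMem hmem] at h1
        omega
    obtain ⟨a, ha, haP, haS⟩ := hex
    have haS' : ∀ y ∈ S, f1 y ≠ a := fun y hy hya =>
      haS (Finset.mem_image.2 ⟨y, hy, hya⟩)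
    refine ⟨a, haP, haS', Jn.adj hx (hfreeZ a haP haS' _) ?_⟩
    rw [h.adj, h.e1, h.e2]
    exact Or.inl ⟨ha, rfl⟩
  have hgood : ∃ b : V2, b ≠ t ∧ ∀ a a', a ∉ (S.filter (fun x => f2 x = b)).image f1 →
      a' ∉ (S.filter (fun x => f2 x = b)).image f1 →
      Jn F1 (↑((S.filter (fun x => f2 x = b)).image f1) : Set V1) a a' := by
    by_contra hcon
    push Not at hcon
    have hRc : ((Finset.univ : Finset V2).erase t).card = Fintype.card V2 - 1 := by
      rw [Finset.card_erase_of_mem (Finset.mem_univ t), Finset.card_univ]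
    obtain ⟨b, hbt, hb⟩ := small_fiber S f2 ((Finset.univ : Finset V2).erase t)
      (Finset.card_pos.1 (by omega))
    rw [hRc] at hb
    obtain ⟨a, a', ha, ha', hJ⟩ := hcon b (Finset.mem_erase.1 hbt).1
    set T : Finset V1 := (S.filter (fun x => f2 x = b)).image f1 with hT
    have hTc : T.card ≤ (S.filter (fun x => f2 x = b)).card := Finset.card_image_le
    have hL := h.layers T
    have h4 : T.card * Fintype.card V2 ≤ 2 * S.card := by
      have h5 : Fintype.card V2 ≤ 2 * (Fintype.card V2 - 1) := by omega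
      calc T.card * Fintype.card V2
          ≤ (S.filter (fun x => f2 x = b)).card * (2 * (Fintype.card V2 - 1)) :=
            Nat.mul_le_mul hTc h5
        _ = 2 * ((Fintype.card V2 - 1) * (S.filter (fun x => f2 x = b)).card) := by ring
        _ ≤ 2 * S.card := Nat.mul_le_mul_left _ hb
    have h6 := hconn (Finset.univ.filter (fun x => f1 x ∈ T)) (by omega) (m a b) (m a' b)
      (fun hx => by
        rw [Finset.mem_coe, Finset.mem_filter, h.e1] at hx
        exact ha hx.2)
      (fun hx => by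
        rw [Finset.mem_coe, Finset.mem_filter, h.e1] at hx
        exact ha' hx.2)
    have h7 := h.proj (A := (T : Set V1)) (fun x hx hxT => hx (by
      rw [Finset.mem_coe, Finset.mem_filter]
      exact ⟨Finset.mem_univ _, Finset.mem_coe.1 hxT⟩)) h6
    rw [h.e1, h.e1] at h7
    exact hJ h7
  obtain ⟨b0, hb0t, hb0⟩ := hgood
  intro x y hx hy
  obtain ⟨a, ha, haS, hxa⟩ := hstep x hx
  obtain ⟨a', ha', haS', hya⟩ := hstep y hy
  have h1 : Jn X ((S : Set V) ∪ {x | P (f1 x) ∧ f2 x = t}) (m a (f2 x)) (m a b0) :=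
    h.swap.lift a (fun z _ => hfreeZ a ha haS z) (hconn2 _ _)
  have h2 : Jn X ((S : Set V) ∪ {x | P (f1 x) ∧ f2 x = t}) (m a' (f2 y)) (m a' b0) :=
    h.swap.lift a' (fun z _ => hfreeZ a' ha' haS' z) (hconn2 _ _)
  have hfree0 : ∀ a, (∀ x ∈ S, f1 x ≠ a) →
      a ∉ (S.filter (fun x => f2 x = b0)).image f1 := by
    intro a haS hmem
    rw [Finset.mem_image] at hmem
    obtain ⟨z, hz, hza⟩ := hmem
    exact haS z (Finset.mem_filter.1 hz).1 hza
  have h3 : Jn X ((S : Set V) ∪ {x | P (f1 x) ∧ f2 x = t}) (m a b0) (m a' b0) := by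
    refine h.lift (A := (↑((S.filter (fun x => f2 x = b0)).image f1) : Set V1))
      b0 ?_ (hb0 a a' (hfree0 a haS) (hfree0 a' haS'))
    intro z hz hmem
    refine hz (Finset.mem_coe.2 ?_)
    rcases hmem with hmem | hmem
    · exact Finset.mem_image.2 ⟨m z b0, Finset.mem_filter.2
        ⟨Finset.mem_coe.1 hmem, h.e2 z b0⟩, h.e1 z b0⟩
    · exact absurd (by have := hmem.2; rwa [h.e2] at this) hb0t
  exact (hxa.trans h1).trans ((h3.trans h2.symm).trans hya.symm)

end Pool.Agent.Detour
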