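import Pool.Agent.Lib.MP_dffe52_co.Detour.H

/-! Cartesian products: the result. -/

set_option autoImplicit false

namespace Pool.Agent.Detour

open SimpleGraph

theorem jn_of_pre {V : Type} (G : SimpleGraph V) (S : Set V)
    (h : (G.induce Sᶜ).Preconnected) : ∀ a b, a ∉ S → b ∉ S → Jn G S a b := by
  intro a b ha hb
  obtain ⟨w⟩ := h ⟨a, ha⟩ ⟨b, hb⟩
  have hsup : ∀ x ∈ (w.map (SimpleGraph.Embedding.induce (G := G) Sᶜ).toHom).support,
      x ∉ S := by
    intro x hx
    rw [Walk.support_map, List.mem_map] at hx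
    obtain ⟨y, -, rfl⟩ := hx
    exact y.2
  exact ⟨_, hsup⟩

theorem prod_core {V V1 V2 : Type} [Fintype V] [Fintype V1] [Fintype V2] {X : SimpleGraph V}
    {F1 : SimpleGraph V1} {F2 : SimpleGraph V2} {f1 : V → V1} {f2 : V → V2} {m : V1 → V2 → V}
    (h : Pr X F1 F2 f1 f2 m) (k : ℕ) (hn : 2 * k + 1 < Fintype.card V)
    (hconn : ∀ S : Finset V, S.card < 2 * k + 1 → ∀ a b, a ∉ (S : Set V) → b ∉ (S : Set V) →
      Jn X (S : Set V) a b) (hV2 : 2 ≤ Fintype.card V2)
    (hodd : ∃ (v : V1) (p : F1.Walk v v), p.IsCycle ∧ Odd p.length) :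
    ∃ (v : V) (p : X.Walk v v), p.IsCycle ∧ Odd p.length ∧
      k < ({x : V | x ∉ p.support}).ncard ∧
      ∀ S : Finset V, S.card < k →
        (X.induce ({x : V | x ∉ p.support} \ (↑S : Set V))).Connected := by
  classical
  obtain ⟨v, p, hp, hpo, hmin⟩ := exists_min F1 hodd
  have hne1 : Nonempty V1 := ⟨v⟩
  have hne2 : Nonempty V2 := Fintype.card_pos_iff.1 (by omega)
  have hX : ∀ x y, Jn X ∅ x y := by
    intro x y
    have h1 := hconn ∅ (by rw [Finset.card_empty]; omega) x y (by simp) (by simp)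
    rwa [Finset.coe_empty] at h1
  have hconn1 : ∀ a a', Jn F1 ∅ a a' := by
    intro a a'
    obtain ⟨b⟩ := hne2
    have h1 := h.proj (A := ∅) (fun x hx => hx) (hX (m a b) (m a' b))
    rwa [h.e1, h.e1] at h1
  have hconn2 : ∀ b b', Jn F2 ∅ b b' := by
    intro b b'
    have h1 := h.swap.proj (A := ∅) (fun x hx => hx) (hX (m v b) (m v b'))
    rwa [h.e2, h.e2] at h1
  have hF2 : F2.Connected := by
    refine ⟨fun b b' => ?_⟩
    obtain ⟨w, -⟩ := hconn2 b b'
    exact ⟨w⟩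
  obtain ⟨t, ht⟩ := hF2.exists_preconnected_induce_compl_singleton_of_finite
  have ht' : ∀ b b', b ≠ t → b' ≠ t → Jn F2 {t} b b' := fun b b' hb hb' =>
    jn_of_pre F2 {t} ht b b' hb hb'
  -- the cycle
  let φ : F1 →g X := ⟨fun z => m z t, fun {a b} hab => by
    rw [h.adj, h.e1, h.e1, h.e2, h.e2]
    exact Or.inl ⟨hab, rfl⟩⟩
  have hφi : Function.Injective φ := by
    intro a b hab
    have h1 : m a t = m b t := hab
    rw [← h.e1 a t, h1, h.e1]
  have hsup : ∀ x, x ∈ (p.map φ).support ↔ (f1 x ∈ p.support ∧ f2 x = t) := by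
    intro x
    rw [Walk.support_map, List.mem_map]
    constructor
    · rintro ⟨z, hz, rfl⟩
      show f1 (m z t) ∈ p.support ∧ f2 (m z t) = t
      rw [h.e1, h.e2]
      exact ⟨hz, rfl⟩
    · rintro ⟨h1, h2⟩
      refine ⟨f1 x, h1, ?_⟩
      show m (f1 x) t = x
      rw [← h2, h.em]
  have hset : {x | x ∈ (p.map φ).support} = {x | f1 x ∈ p.support ∧ f2 x = t} := by
    ext x
    exact hsup x
  have hk : k < ({x : V | x ∉ (p.map φ).support}).ncard := by
    obtain ⟨t', ht't⟩ : ∃ t' : V2, t' ≠ t := by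
      by_contra hcon
      push Not at hcon
      have h1 : Fintype.card V2 ≤ 1 := Fintype.card_le_one_iff.2 (fun a b => by
        rw [hcon a, hcon b])
      omega
    have h1 : {x : V | f2 x ≠ t} ⊆ {x : V | x ∉ (p.map φ).support} := by
      intro x hx hx'
      exact hx ((hsup x).1 hx').2
    have h2 : ({x : V | f2 x = t}).ncard ≤ ({x : V | f2 x ≠ t}).ncard := by
      refine Set.ncard_le_ncard_of_injOn (fun x => m (f1 x) t') ?_ ?_ (Set.toFinite _)
      · intro x _
        show f2 (m (f1 x) t') ≠ t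
        rw [h.e2]
        exact ht't
      · intro x hx y hy hxy
        have h3 : m (f1 x) t' = m (f1 y) t' := hxy
        have h4 : f1 x = f1 y := by rw [← h.e1 (f1 x) t', h3, h.e1]
        have h5 : f2 x = t := hx
        have h6 : f2 y = t := hy
        rw [← h.em x, ← h.em y, h4, h5, h6]
    have h3 : (Set.univ : Set V) ⊆ {x : V | f2 x = t} ∪ {x : V | f2 x ≠ t} := by
      intro x _
      by_cases hx : f2 x = t
      · exact Or.inl hx
      · exact Or.inr hx
    have h4 := Set.ncard_le_ncard h3 (Set.toFinite _)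
    have h5 := Set.ncard_union_le {x : V | f2 x = t} {x : V | f2 x ≠ t}
    have h6 := Set.ncard_le_ncard h1 (Set.toFinite _)
    rw [Set.ncard_univ, Nat.card_eq_fintype_card] at h4
    omega
  refine ⟨φ v, p.map φ, (Walk.isCycle_map_iff_of_injective hφi).2 hp, ?_, hk,
    fun S hS => ?_⟩
  · rw [Walk.length_map]
    exact hpo
  · refine finish X k (fun x => x ∈ (p.map φ).support) hk S hS ?_
    show ∀ a b, a ∉ ((S : Set V) ∪ {x | x ∈ (p.map φ).support}) →
      b ∉ ((S : Set V) ∪ {x | x ∈ (p.map φ).support}) →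
      Jn X ((S : Set V) ∪ {x | x ∈ (p.map φ).support}) a b
    rw [hset]
    by_cases hδ : ∀ b : V2, k ≤ (F2.neighborSet b).ncard
    · exact case_one h k hconn hne1 t ht' hconn1 hδ (fun a => a ∈ p.support) S hS
    · push Not at hδ
      obtain ⟨b0, hb0⟩ := hδ
      refine case_two h k hconn hV2 t hconn2 (fun a => ?_) (fun a => a ∈ p.support)
        (few3 F1 v p hpo hmin) (few F1 v p hpo hmin) S hS
      have h1 := deg_of_conn X (2 * k + 1) hn hconn (m a b0)
      have h2 := h.deg a b0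
      omega

theorem main_prod (k : ℕ) (V1 V2 : Type) [Fintype V1] [Fintype V2] (F1 : SimpleGraph V1)
    (F2 : SimpleGraph V2) (h1 : 2 ≤ Fintype.card V1) (h2 : 2 ≤ Fintype.card V2)
    (hG : 2 * k + 1 < Fintype.card (V1 × V2) ∧
      ∀ S : Finset (V1 × V2), S.card < 2 * k + 1 →
        ((F1.boxProd F2).induce ((↑S : Set (V1 × V2))ᶜ)).Connected)
    (hodd : ∃ (v : V1 × V2) (p : (F1.boxProd F2).Walk v v), p.IsCycle ∧ Odd p.length) :
    ∃ (v : V1 × V2) (p : (F1.boxProd F2).Walk v v), p.IsCycle ∧ Odd p.length ∧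
      k < ({x : V1 × V2 | x ∉ p.support}).ncard ∧
      ∀ S : Finset (V1 × V2), S.card < k →
        ((F1.boxProd F2).induce ({x : V1 × V2 | x ∉ p.support} \
          (↑S : Set (V1 × V2)))).Connected := by
  have h : Pr (F1.boxProd F2) F1 F2 Prod.fst Prod.snd (fun a b => (a, b)) :=
    ⟨fun _ _ => rfl, fun _ _ => rfl, fun _ => rfl, fun x y => boxProd_adj⟩
  have hconn : ∀ S : Finset (V1 × V2), S.card < 2 * k + 1 → ∀ a b,
      a ∉ (S : Set (V1 × V2)) → b ∉ (S : Set (V1 × V2)) →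
      Jn (F1.boxProd F2) (S : Set (V1 × V2)) a b :=
    fun S hS => jn_of_induce _ _ (hG.2 S hS)
  obtain ⟨v, p, -, hpo⟩ := hodd
  obtain ⟨w1, w2, hw⟩ := h.split p
  by_cases ho : Odd w1.length
  · obtain ⟨u, q, hq, hqo, -⟩ := odd_cycle_le F1 _ w1 ho
    exact prod_core h k hG.1 hconn h2 ⟨u, q, hq, hqo⟩
  · have ho2 : Odd w2.length := by
      rw [Nat.not_odd_iff_even] at ho
      obtain ⟨a, ha⟩ := ho
      obtain ⟨b, hb⟩ := hpo
      exact ⟨b - a, by omega⟩
    obtain ⟨u, q, hq, hqo, -⟩ := odd_cycle_le F2 _ w2 ho2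
    exact prod_core h.swap k hG.1 hconn h1 ⟨u, q, hq, hqo⟩

end Pool.Agent.Detour
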